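import Pool.Agent.V11214.CP.Game

/-!
# The multi-layer game of cops and robbers
-/

set_option autoImplicit false

namespace Pool.Agent.V11214.CP

open N6ef48c04 Pool.Agent.H251R2.Cops

variable {V : Type}

/-- The game with cop layers `C i` and robber layer `R`; the cop `j` is confined to the layer
`C (l j)`. The cops at `c` are to move, the robber is at `r`, and they catch him within `m` rounds. -/
def MultiCatch {τ : ℕ} (C : Fin τ → SimpleGraph V) (R : SimpleGraph V) {ι : Type}
    (l : ι → Fin τ) : ℕ → (ι → V) → V → Prop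
  | 0, c, r => ∃ i, c i = r
  | m + 1, c, r => (∃ i, c i = r) ∨ ∃ c' : ι → V, (∀ i, Step (C (l i)) (c i) (c' i)) ∧
      ((∃ i, c' i = r) ∨ ∀ r', Step R r r' → MultiCatch C R l m c' r')

/-- `k` cops win for some allocation to the layers and some starting vertices. -/
def MultiWin {τ : ℕ} (C : Fin τ → SimpleGraph V) (R : SimpleGraph V) (k : ℕ) : Prop :=
  ∃ (l : Fin k → Fin τ) (c : Fin k → V), ∀ r : V, ∃ m, MultiCatch C R l m c r

/-- The multi-layer cop number. -/
noncomputable def multiCopNumber {τ : ℕ} (C : Fin τ → SimpleGraph V) (R : SimpleGraph V) : ℕ :=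
  sInf {k | MultiWin C R k}

section
variable {τ : ℕ} {C : Fin τ → SimpleGraph V} {R : SimpleGraph V} {ι : Type}

theorem multi_mono (l : ι → Fin τ) (m : ℕ) : ∀ (c : ι → V) (r : V),
    MultiCatch C R l m c r → MultiCatch C R l (m + 1) c r := by
  induction m with
  | zero => exact fun c r h => Or.inl h
  | succ m ih =>
    rintro c r (h | ⟨c', hc, h⟩)
    · exact Or.inl h
    · refine Or.inr ⟨c', hc, h.imp_right fun h r' hr' => ih _ _ (h r' hr')⟩

theorem multi_mono' (l : ι → Fin τ) {m n : ℕ} (hmn : m ≤ n) {c : ι → V} {r : V}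
    (h : MultiCatch C R l m c r) : MultiCatch C R l n c r := by
  induction hmn with
  | refl => exact h
  | step _ ih => exact multi_mono l _ _ _ ih

theorem multi_comp {κ : Type} (l : ι → Fin τ) (e : κ ≃ ι) (m : ℕ) : ∀ (c : ι → V) (r : V),
    MultiCatch C R l m c r → MultiCatch C R (l ∘ e) m (c ∘ e) r := by
  induction m with
  | zero =>
    rintro c r ⟨i, hi⟩
    exact ⟨e.symm i, by simpa using hi⟩
  | succ m ih =>
    rintro c r (⟨i, hi⟩ | ⟨c', hc, h⟩)
    · exact Or.inl ⟨e.symm i, by simpa using hi⟩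
    · refine Or.inr ⟨c' ∘ e, fun i => hc (e i), ?_⟩
      rcases h with ⟨i, hi⟩ | h
      · exact Or.inl ⟨e.symm i, by simpa using hi⟩
      · exact Or.inr fun r' hr' => ih _ _ (h r' hr')

theorem multiCopNumber_le [Fintype ι] (l : ι → Fin τ) (c : ι → V)
    (h : ∀ r, ∃ m, MultiCatch C R l m c r) : multiCopNumber C R ≤ Fintype.card ι := by
  classical
  have e : Fin (Fintype.card ι) ≃ ι := (Fintype.equivFin ι).symm
  refine Nat.sInf_le ⟨l ∘ e, c ∘ e, fun r => ?_⟩
  obtain ⟨m, hm⟩ := h r
  exact ⟨m, multi_comp l e m c r hm⟩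

/-- Static cops on a vertex cover `T` of the edges of the robber layer which are missing in one of
the layers, and cops who win the game in this layer. -/
theorem static_cover [Finite V] (j : Fin τ) (T : Finset V)
    (hT : ∀ u v, R.Adj u v → u ∉ T → v ∉ T → (C j).Adj u v) {κ : Type} {c : κ → V} {r : V}
    (h : RW (C j) c r) :
    ∃ m, (∃ i, (Sum.elim (fun t : {v // v ∈ T} => (t : V)) c) i = r) ∨ ∀ r', Step R r r' →
      MultiCatch C R (fun _ : {v // v ∈ T} ⊕ κ => j) m
        (Sum.elim (fun t : {v // v ∈ T} => (t : V)) c) r' := by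
  classical
  have := Fintype.ofFinite V
  induction h with
  | caught h =>
    obtain ⟨i, hi⟩ := h
    exact ⟨0, Or.inl ⟨Sum.inr i, hi⟩⟩
  | @move c r f hf _ ih =>
    by_cases hr : r ∈ T
    · exact ⟨0, Or.inl ⟨Sum.inl ⟨r, hr⟩, rfl⟩⟩
    choose! m hm using ih
    refine ⟨∑ x, (m x + 1), Or.inr fun r' hr' => ?_⟩
    by_cases hr2 : r' ∈ T
    · exact multi_mono' _ (Nat.zero_le _)
        (show MultiCatch C R (fun _ : {v // v ∈ T} ⊕ κ => j) 0 _ r' from
          ⟨Sum.inl ⟨r', hr2⟩, rfl⟩)
    have h1 : Step (C j) r r' := by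
      rcases hr' with h | h
      · exact Or.inl h
      · exact Or.inr (hT r r' h hr hr2)
    have h2 : MultiCatch C R (fun _ : {v // v ∈ T} ⊕ κ => j) (m r' + 1)
        (Sum.elim (fun t : {v // v ∈ T} => (t : V)) c) r' := by
      refine Or.inr ⟨Sum.elim (fun t : {v // v ∈ T} => (t : V)) (f r'), ?_, hm r' h1⟩
      rintro (t | i)
      · exact Or.inl rfl
      · exact hf r' h1 i
    exact multi_mono' _ (Finset.single_le_sum (f := fun x => m x + 1)
      (fun i _ => Nat.zero_le _) (Finset.mem_univ r')) h2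

theorem multiCopNumber_le_cover [Fintype V] (j : Fin τ) (hC : (C j).Connected) (T : Finset V)
    (hT : ∀ u v, R.Adj u v → u ∉ T → v ∉ T → (C j).Adj u v) :
    multiCopNumber C R ≤ T.card + copNumber (C j) := by
  classical
  obtain ⟨v⟩ := hC.nonempty
  have h := multiCopNumber_le (C := C) (R := R) (ι := {v // v ∈ T} ⊕ Fin (copNumber (C j)))
    (fun _ => j) (Sum.elim (fun t : {v // v ∈ T} => (t : V)) (fun _ => v)) fun r => by
      obtain ⟨m, hm⟩ := static_cover (C := C) (R := R) j T hT
        (all_win (C j) hC (Fintype.card_fin _) (fun _ => v) r)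
      exact ⟨m + 1, Or.inr ⟨_, fun _ => Or.inl rfl, hm⟩⟩
  rwa [Fintype.card_sum, Fintype.card_coe, Fintype.card_fin] at h

/-- a cover with at most `e - n + 1` vertices -/
theorem exists_cover [Fintype V] (j : Fin τ) (hC : (C j).Connected) (hle : C j ≤ R) :
    ∃ T : Finset V, T.card + Nat.card V ≤ Nat.card R.edgeSet + 1 ∧
      ∀ u v, R.Adj u v → u ∉ T → v ∉ T → (C j).Adj u v := by
  classical
  refine ⟨(R.edgeFinset \ (C j).edgeFinset).image (fun e => (Quot.out e).1), ?_, ?_⟩
  · have h1 : ((R.edgeFinset \ (C j).edgeFinset).image (fun e => (Quot.out e).1)).card ≤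
        (R.edgeFinset \ (C j).edgeFinset).card := Finset.card_image_le
    have h2 : (C j).edgeFinset ⊆ R.edgeFinset := SimpleGraph.edgeFinset_mono hle
    rw [Finset.card_sdiff_of_subset h2] at h1
    have h3 := Finset.card_le_card h2
    have h4 := hC.card_vert_le_card_edgeSet_add_one
    have h5 : Nat.card R.edgeSet = R.edgeFinset.card := by
      rw [Nat.card_eq_fintype_card, SimpleGraph.edgeFinset_card]
    have h6 : Nat.card (C j).edgeSet = (C j).edgeFinset.card := by
      rw [Nat.card_eq_fintype_card, SimpleGraph.edgeFinset_card]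
    omega
  · intro u v huv hu hv
    by_contra hC'
    have h1 : s(u, v) ∈ R.edgeFinset \ (C j).edgeFinset := by
      rw [Finset.mem_sdiff, SimpleGraph.mem_edgeFinset, SimpleGraph.mem_edgeFinset,
        SimpleGraph.mem_edgeSet, SimpleGraph.mem_edgeSet]
      exact ⟨huv, hC'⟩
    have h2 : (Quot.out s(u, v)).1 = u ∨ (Quot.out s(u, v)).1 = v := by
      have h3 : (Quot.out s(u, v)).1 ∈ s(u, v) := Sym2.out_fst_mem _
      rwa [Sym2.mem_iff] at h3
    have h3 : (Quot.out s(u, v)).1 ∈
        (R.edgeFinset \ (C j).edgeFinset).image (fun e => (Quot.out e).1) :=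
      Finset.mem_image_of_mem _ h1
    rcases h2 with h2 | h2
    · rw [h2] at h3
      exact hu h3
    · rw [h2] at h3
      exact hv h3

end

end Pool.Agent.V11214.CP
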