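import Pool.Agent.H251R2.Cops.Basic

/-!
# Cops and robbers on Cartesian products

`RW G c r`: the robber is at `r` and has to move, and the cops at `c` win.
-/

set_option autoImplicit false

namespace Pool.Agent.V11214.CP

open N6ef48c04 Pool.Agent.H251R2.Cops

variable {V W : Type}

/-- the cops at `c` win if the robber is at `r` and has to move -/
inductive RW (G : SimpleGraph V) {ι : Type} : (ι → V) → V → Prop
  | caught {c : ι → V} {r : V} : (∃ i, c i = r) → RW G c r
  | move {c : ι → V} {r : V} (f : V → ι → V) : (∀ r', Step G r r' → ∀ i, Step G (c i) (f r' i)) →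
      (∀ r', Step G r r' → RW G (f r') r') → RW G c r

/-- bounded number of rounds -/
def T (G : SimpleGraph V) {ι : Type} (m : ℕ) (c : ι → V) (r : V) : Prop :=
  (∃ i, c i = r) ∨ ∀ r', Step G r r' → CatchI G m c r'

theorem rw_bound [Finite V] (G : SimpleGraph V) {ι : Type} {c : ι → V} {r : V} (h : RW G c r) :
    ∃ m, T G m c r := by
  induction h with
  | caught h => exact ⟨0, Or.inl h⟩
  | @move c r f h1 _ ih =>
    choose! m hm using ih
    have := Fintype.ofFinite V
    refine ⟨∑ x, (m x + 1), Or.inr fun r' hr' => ?_⟩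
    have h2 : CatchI G (m r' + 1) c r' := Or.inr ⟨f r', h1 r' hr', hm r' hr'⟩
    exact catchI_mono' G (Finset.single_le_sum (f := fun x => m x + 1) (fun i _ => Nat.zero_le _)
      (Finset.mem_univ r')) h2

theorem rw_of_T (G : SimpleGraph V) {ι : Type} (m : ℕ) : ∀ {c : ι → V} {r : V}, T G m c r →
    RW G c r := by
  classical
  induction m with
  | zero =>
    intro c r h
    rcases h with h | h
    · exact RW.caught h
    · exact RW.move (fun _ => c) (fun _ _ _ => Or.inl rfl) fun r' hr' => RW.caught (h r' hr')
  | succ m ih =>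
    intro c r h
    rcases h with h | h
    · exact RW.caught h
    · have h2 : ∀ r', Step G r r' → ∃ c' : ι → V, (∀ i, Step G (c i) (c' i)) ∧ RW G c' r' := by
        intro r' hr'
        rcases h r' hr' with h3 | ⟨c', h3, h4⟩
        · exact ⟨c, fun _ => Or.inl rfl, RW.caught h3⟩
        · exact ⟨c', h3, ih h4⟩
      choose! f hf using h2
      exact RW.move f (fun r' hr' => (hf r' hr').1) fun r' hr' => (hf r' hr').2

theorem rw_comp (G : SimpleGraph V) {ι κ : Type} (e : κ ≃ ι) {c' : κ → V} {r : V}
    (h : RW G c' r) : ∀ {c : ι → V}, c' = c ∘ e → RW G c r := by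
  induction h with
  | caught h =>
    rintro c rfl
    obtain ⟨i, hi⟩ := h
    exact RW.caught ⟨e i, hi⟩
  | @move c' r f h1 _ ih =>
    rintro c rfl
    refine RW.move (fun r' i => f r' (e.symm i)) (fun r' hr' i => ?_) fun r' hr' =>
      ih r' hr' ?_
    · have := h1 r' hr' (e.symm i)
      simpa using this
    · funext i
      simp

theorem catch_iff (G : SimpleGraph V) {k : ℕ} (m : ℕ) : ∀ (c : Fin k → V) (r : V),
    CopsCatchWithin G k m c r → CatchI G m c r := by
  induction m with
  | zero => exact fun c r h => h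
  | succ m ih =>
    intro c r h
    rcases h with h | ⟨c', hc, h⟩
    · exact Or.inl h
    · refine Or.inr ⟨c', hc, ?_⟩
      rcases h with h | h
      · exact Or.inl h
      · exact Or.inr fun r' hr => ih c' r' (h r' hr)

theorem copsWin_copNumber [Fintype V] (G : SimpleGraph V) : CopsWin G (copNumber G) := by
  have h : (Fintype.card V) ∈ {k | CopsWin G k} :=
    ⟨(Fintype.equivFin V).symm, fun r => ⟨0, (Fintype.equivFin V) r, by simp⟩⟩
  exact Nat.sInf_mem ⟨_, h⟩

/-- a step towards `t` -/
theorem closer (G : SimpleGraph V) (hG : G.Connected) (x t : V) :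
    ∃ x', Step G x x' ∧ G.dist x' t ≤ G.dist x t ∧ (x ≠ t → G.dist x' t < G.dist x t) := by
  by_cases hx : x = t
  · exact ⟨x, Or.inl rfl, le_rfl, fun h => absurd hx h⟩
  · obtain ⟨w, hw⟩ := (hG.preconnected x t).exists_walk_length_eq_dist
    cases w with
    | nil => exact absurd rfl hx
    | @cons _ y _ hadj p =>
      have h1 : G.dist y t ≤ p.length := SimpleGraph.dist_le p
      rw [SimpleGraph.Walk.length_cons] at hw
      exact ⟨y, Or.inr hadj, by omega, fun _ => by omega⟩

/-- on a connected graph `copNumber` cops win from every position -/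
theorem all_win [Fintype V] (G : SimpleGraph V) (hG : G.Connected) {ι : Type} [Fintype ι]
    (hι : Fintype.card ι = copNumber G) (c : ι → V) (r : V) : RW G c r := by
  classical
  obtain ⟨c0, hc0⟩ := copsWin_copNumber G
  have e : Fin (copNumber G) ≃ ι := (Fintype.equivFinOfCardEq hι).symm
  have hstart : ∀ r, RW G (c0 ∘ e.symm) r := by
    intro r
    choose m hm using hc0
    have h1 : T G (∑ x, m x) c0 r := Or.inr fun r' _ => catchI_mono' G
      (Finset.single_le_sum (f := m) (fun i _ => Nat.zero_le _) (Finset.mem_univ r'))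
      (catch_iff G _ c0 r' (hm r'))
    refine rw_comp G e (rw_of_T G _ h1) ?_
    funext i
    simp
  have key : ∀ (d : ℕ) (c : ι → V) (r : V), ∑ i, G.dist (c i) (c0 (e.symm i)) ≤ d →
      RW G c r := by
    intro d
    induction d with
    | zero =>
      intro c r h
      have h1 : c = c0 ∘ e.symm := by
        funext i
        have h2 : G.dist (c i) (c0 (e.symm i)) ≤ 0 := (Finset.single_le_sum
          (f := fun i => G.dist (c i) (c0 (e.symm i))) (fun i _ => Nat.zero_le _)
          (Finset.mem_univ i)).trans h
        exact (hG.dist_eq_zero_iff).1 (Nat.le_zero.1 h2)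
      rw [h1]
      exact hstart r
    | succ d ih =>
      intro c r h
      have h1 : ∀ i, ∃ x', Step G (c i) x' ∧ G.dist x' (c0 (e.symm i)) ≤
          G.dist (c i) (c0 (e.symm i)) ∧ (c i ≠ c0 (e.symm i) →
            G.dist x' (c0 (e.symm i)) < G.dist (c i) (c0 (e.symm i))) :=
        fun i => closer G hG _ _
      choose c' h2 h3 h4 using h1
      refine RW.move (fun _ => c') (fun _ _ => h2) fun r' _ => ih c' r' ?_
      by_cases h5 : ∃ i, c i ≠ c0 (e.symm i)
      · obtain ⟨i, hi⟩ := h5
        have h6 := Finset.sum_lt_sum (s := Finset.univ) (fun i _ => h3 i)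
          ⟨i, Finset.mem_univ i, h4 i hi⟩
        omega
      · push Not at h5
        have h6 : ∑ i, G.dist (c' i) (c0 (e.symm i)) = 0 := by
          apply Finset.sum_eq_zero
          intro i _
          have := h3 i
          rw [h5 i, SimpleGraph.dist_self] at this
          omega
        omega
  exact key _ c r le_rfl

end Pool.Agent.V11214.CP
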